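import Mathlib

set_option autoImplicit false

/-!
# The free inverse monoid and Munn's theorem
-/

namespace Pool.Agent.Helper25.FIM

/-- Words over the alphabet `A ∪ A⁻¹`: the letter `(a, true)` stands for `a` and the letter
`(a, false)` for its formal inverse `a⁻¹`. -/
abbrev Word (A : Type) := List (A × Bool)

/-- The involution `u ↦ u⁻¹` of words: reverse the word and invert each letter. -/
def winv {A : Type} (u : Word A) : Word A := (u.map fun x => (x.1, !x.2)).reverse

/-- The pairs `(u u⁻¹ u, u)` and `(u u⁻¹ v v⁻¹, v v⁻¹ u u⁻¹)`. -/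
inductive Pairs (A : Type) : FreeMonoid (A × Bool) → FreeMonoid (A × Bool) → Prop
  | regular (u : Word A) :
      Pairs A (FreeMonoid.ofList (u ++ winv u ++ u)) (FreeMonoid.ofList u)
  | commute (u v : Word A) :
      Pairs A (FreeMonoid.ofList (u ++ winv u ++ v ++ winv v))
        (FreeMonoid.ofList (v ++ winv v ++ u ++ winv u))

/-- The congruence `ρ` generated by these pairs. -/
def rho (A : Type) : Con (FreeMonoid (A × Bool)) := conGen (Pairs A)

/-- The free inverse monoid `M_A`. -/
abbrev FreeInvMonoid (A : Type) : Type := (rho A).Quotient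

/-- The canonical map from words to `M_A`. -/
def can {A : Type} (w : Word A) : FreeInvMonoid A := (rho A).mk' (FreeMonoid.ofList w)

variable {A : Type}

theorem can_append (u v : Word A) : can (u ++ v) = can u * can v :=
  map_mul (rho A).mk' (FreeMonoid.ofList u) (FreeMonoid.ofList v)

theorem can_nil : can ([] : Word A) = 1 := rfl

theorem can_surj (x : FreeInvMonoid A) : ∃ w : Word A, can w = x := by
  obtain ⟨w, hw⟩ := Con.mk'_surjective (c := rho A) x
  exact ⟨FreeMonoid.toList w, hw⟩

theorem can_regular (u : Word A) : can u * can (winv u) * can u = can u := by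
  rw [← can_append, ← can_append]
  exact (Con.eq _).2 (ConGen.Rel.of _ _ (Pairs.regular u))

theorem can_commute (u v : Word A) :
    can u * can (winv u) * (can v * can (winv v)) = can v * can (winv v) * (can u * can (winv u)) := by
  have : can (u ++ winv u ++ v ++ winv v) = can (v ++ winv v ++ u ++ winv u) :=
    (Con.eq _).2 (ConGen.Rel.of _ _ (Pairs.commute u v))
  simpa only [can_append, mul_assoc] using this

theorem winv_winv (u : Word A) : winv (winv u) = u := by
  simp [winv, List.map_reverse, Function.comp_def]

theorem winv_append (u v : Word A) : winv (u ++ v) = winv v ++ winv u := by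
  simp [winv]

theorem winv_cons (x : A × Bool) (v : Word A) : winv (x :: v) = winv v ++ winv [x] := by
  simp [winv]

/-- pairs (set of suffix vertices, group element) -/
@[ext] structure Munn (A : Type) where
  S : Set (FreeGroup A)
  g : FreeGroup A
  one_mem : 1 ∈ S
  g_mem : g ∈ S

namespace Munn

instance : Mul (Munn A) := ⟨fun x y =>
  ⟨{s | s ∈ y.S ∨ s * y.g⁻¹ ∈ x.S}, x.g * y.g, Or.inl y.one_mem, by
    right; simpa using x.g_mem⟩⟩

instance : One (Munn A) := ⟨⟨{1}, 1, rfl, rfl⟩⟩

theorem mul_g (x y : Munn A) : (x * y).g = x.g * y.g := rfl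

theorem one_g : (1 : Munn A).g = 1 := rfl

theorem mem_mul (x y : Munn A) (s : FreeGroup A) :
    s ∈ (x * y).S ↔ s ∈ y.S ∨ s * y.g⁻¹ ∈ x.S := Iff.rfl

theorem mem_one (s : FreeGroup A) : s ∈ (1 : Munn A).S ↔ s = 1 := Iff.rfl

instance : Monoid (Munn A) where
  mul_assoc x y z := by
    ext s
    · simp only [mem_mul, mul_g, mul_inv_rev, mul_assoc, or_assoc]
    · simp only [mul_g, mul_assoc]
  one_mul x := by
    ext s
    · simp only [mem_mul, mem_one]
      constructor
      · rintro (h | h)
        · exact h
        · rw [mul_inv_eq_one] at h; subst h; exact x.g_mem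
      · exact Or.inl
    · simp [mul_g, one_g]
  mul_one x := by
    ext s
    · simp only [mem_mul, mem_one, one_g, inv_one, mul_one]
      constructor
      · rintro (h | h)
        · subst h; exact x.one_mem
        · exact h
      · exact Or.inr
    · simp [mul_g, one_g]

/-- the inverse -/
def iv (x : Munn A) : Munn A :=
  ⟨{s | s * x.g ∈ x.S}, x.g⁻¹, by simpa using x.g_mem, by simpa using x.one_mem⟩

theorem mem_iv (x : Munn A) (s : FreeGroup A) : s ∈ x.iv.S ↔ s * x.g ∈ x.S := Iff.rfl

theorem iv_g (x : Munn A) : x.iv.g = x.g⁻¹ := rfl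

theorem iv_mul (x y : Munn A) : (x * y).iv = y.iv * x.iv := by
  ext s
  · simp only [mem_mul, mem_iv, mul_g, iv_g, inv_inv]
    rw [show s * (x.g * y.g) * y.g⁻¹ = s * x.g by group, mul_assoc]
    tauto
  · simp [iv_g, mul_g]

theorem mul_iv_mul (x : Munn A) : x * x.iv * x = x := by
  ext s
  · simp only [mem_mul, mem_iv, iv_g, inv_inv]
    simp
  · simp [iv_g, mul_g]

theorem mul_iv_comm (x y : Munn A) : x * x.iv * (y * y.iv) = y * y.iv * (x * x.iv) := by
  ext s
  · simp only [mem_mul, mem_iv, iv_g, mul_g, inv_inv]
    simp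
    tauto
  · simp [iv_g, mul_g]

/-- the inverse is determined by the two inversion equations -/
theorem eq_iv {x y : Munn A} (h1 : x * y * x = x) (h2 : y * x * y = y) : y = x.iv := by
  have hg : y.g = x.g⁻¹ := by
    have := congrArg Munn.g h1
    simp only [mul_g] at this
    have h3 : x.g * y.g = 1 := by simpa using this
    exact eq_inv_of_mul_eq_one_right h3
  ext s
  · rw [mem_iv]
    have h3 := congrArg Munn.S h1
    have h4 := congrArg Munn.S h2
    rw [Set.ext_iff] at h3 h4
    have h3 := h3 (s * x.g)
    have h4 := h4 s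
    simp only [mem_mul, mul_g, hg, mul_assoc] at h3 h4
    simp only [mul_inv_rev, mul_inv_cancel, inv_mul_cancel, inv_one, mul_one, inv_inv] at h3 h4
    tauto
  · exact hg

/-- the image of a letter -/
def letter (x : A × Bool) : Munn A :=
  ⟨{1, FreeGroup.mk [x]}, FreeGroup.mk [x], by simp, by simp⟩

end Munn

/-- the map to Munn pairs on words -/
def toMunn : FreeMonoid (A × Bool) →* Munn A := FreeMonoid.lift Munn.letter

theorem toMunn_cons (x : A × Bool) (w : Word A) :
    toMunn (FreeMonoid.ofList (x :: w)) = Munn.letter x * toMunn (FreeMonoid.ofList w) := by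
  simp [toMunn, FreeMonoid.lift_apply]

theorem toMunn_append (u v : Word A) :
    toMunn (FreeMonoid.ofList (u ++ v)) =
      toMunn (FreeMonoid.ofList u) * toMunn (FreeMonoid.ofList v) :=
  map_mul toMunn (FreeMonoid.ofList u) (FreeMonoid.ofList v)

theorem letter_iv (x : A × Bool) : (Munn.letter x).iv = Munn.letter (x.1, !x.2) := by
  have h : (FreeGroup.mk [x])⁻¹ = FreeGroup.mk [(x.1, !x.2)] := by
    rw [FreeGroup.inv_mk]; rfl
  ext s
  · rw [Munn.mem_iv]
    simp only [Munn.letter, Set.mem_insert_iff, Set.mem_singleton_iff, ← h]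
    rw [mul_eq_one_iff_eq_inv]
    constructor
    · rintro (h | h)
      · exact Or.inr h
      · left; simpa using h
    · rintro (h | h)
      · right; simpa using h
      · exact Or.inl h
  · exact h

theorem toMunn_inv (w : Word A) :
    toMunn (FreeMonoid.ofList (winv w)) = (toMunn (FreeMonoid.ofList w)).iv := by
  induction w with
  | nil =>
    have : toMunn (FreeMonoid.ofList ([] : Word A)) = 1 := rfl
    simp only [winv, List.map_nil, List.reverse_nil, this]
    ext s
    · simp [Munn.mem_iv, Munn.mem_one, Munn.one_g]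
    · simp [Munn.iv_g, Munn.one_g]
  | cons x w ih =>
    have h1 : winv [x] = (x.1, !x.2) :: [] := rfl
    have h2 : toMunn (FreeMonoid.ofList (winv [x])) = Munn.letter (x.1, !x.2) := by
      rw [h1, toMunn_cons]
      exact mul_one _
    rw [winv_cons, toMunn_append, ih, toMunn_cons, Munn.iv_mul, letter_iv, h2]

theorem rho_le : rho A ≤ Con.ker (toMunn (A := A)) := by
  unfold rho
  rw [Con.conGen_le]
  intro x y h
  change toMunn x = toMunn y
  cases h with
  | regular u => simp only [toMunn_append, toMunn_inv, Munn.mul_iv_mul]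
  | commute u v =>
    simp only [toMunn_append, toMunn_inv]
    have := Munn.mul_iv_comm (toMunn (FreeMonoid.ofList u)) (toMunn (FreeMonoid.ofList v))
    simpa only [mul_assoc] using this

/-- the map from the free inverse monoid to Munn pairs -/
def mu : FreeInvMonoid A →* Munn A := Con.lift (rho A) toMunn rho_le

theorem mu_can (w : Word A) : mu (can w) = toMunn (FreeMonoid.ofList w) := rfl

/-- the vertex set -/
def V (x : FreeInvMonoid A) : Set (FreeGroup A) := (mu x).S

/-- the group element -/
def bar : FreeInvMonoid A →* FreeGroup A where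
  toFun x := (mu x).g
  map_one' := by rw [map_one]; rfl
  map_mul' x y := by rw [map_mul]; rfl

theorem mem_V_mul (x y : FreeInvMonoid A) (s : FreeGroup A) :
    s ∈ V (x * y) ↔ s ∈ V y ∨ s * (bar y)⁻¹ ∈ V x := by
  unfold V
  rw [map_mul]
  exact Munn.mem_mul _ _ _

theorem one_mem_V (x : FreeInvMonoid A) : 1 ∈ V x := (mu x).one_mem

theorem bar_mem_V (x : FreeInvMonoid A) : bar x ∈ V x := (mu x).g_mem

theorem mem_V_one (s : FreeGroup A) : s ∈ V (1 : FreeInvMonoid A) ↔ s = 1 := by
  unfold V
  rw [map_one]
  exact Munn.mem_one _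

theorem bar_can (w : Word A) : bar (can w) = FreeGroup.mk w := by
  change (toMunn (FreeMonoid.ofList w)).g = _
  induction w with
  | nil => rfl
  | cons x w ih =>
    rw [toMunn_cons, Munn.mul_g, ih]
    change FreeGroup.mk [x] * FreeGroup.mk w = _
    rw [FreeGroup.mul_mk]
    rfl

theorem mem_V_can (w : Word A) (s : FreeGroup A) :
    s ∈ V (can w) ↔ ∃ w₁ w₂ : Word A, w = w₁ ++ w₂ ∧ FreeGroup.mk w₂ = s := by
  induction w generalizing s with
  | nil =>
    rw [can_nil, mem_V_one]
    constructor
    · rintro rfl
      exact ⟨[], [], rfl, rfl⟩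
    · rintro ⟨w₁, w₂, h1, h2⟩
      have : w₂ = [] := by
        have := congrArg List.length h1
        simp only [List.length_nil, List.length_append] at this
        exact List.eq_nil_of_length_eq_zero (by omega)
      subst this
      exact h2.symm
  | cons x w ih =>
    have h0 : can (x :: w) = can [x] * can w := can_append [x] w
    rw [h0, mem_V_mul, ih]
    have h1 : ∀ t : FreeGroup A, t ∈ V (can [x]) ↔ t = 1 ∨ t = FreeGroup.mk [x] := by
      intro t
      have h2 : toMunn (FreeMonoid.ofList [x]) = Munn.letter x := by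
        rw [toMunn_cons]; exact mul_one _
      change t ∈ (toMunn (FreeMonoid.ofList [x])).S ↔ _
      rw [h2]
      rfl
    rw [h1, bar_can]
    constructor
    · rintro (⟨w₁, w₂, h2, h3⟩ | h2 | h2)
      · exact ⟨x :: w₁, w₂, by rw [h2]; rfl, h3⟩
      · rw [mul_inv_eq_one] at h2
        exact ⟨[x], w, rfl, h2.symm⟩
      · rw [mul_inv_eq_iff_eq_mul, FreeGroup.mul_mk] at h2
        exact ⟨[], x :: w, rfl, h2.symm⟩
    · rintro ⟨w₁, w₂, h2, h3⟩
      cases w₁ with
      | nil =>
        right; right
        rw [mul_inv_eq_iff_eq_mul, FreeGroup.mul_mk, ← h3]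
        simp only [List.nil_append] at h2
        rw [← h2]; rfl
      | cons y w₁ =>
        left
        simp only [List.cons_append, List.cons.injEq] at h2
        exact ⟨w₁, w₂, h2.2, h3⟩

theorem V_finite (x : FreeInvMonoid A) : (V x).Finite := by
  obtain ⟨w, rfl⟩ := can_surj x
  have : V (can w) ⊆ (fun w₂ => FreeGroup.mk w₂) '' {w₂ | w₂ ∈ w.tails} := by
    intro s hs
    obtain ⟨w₁, w₂, h1, h2⟩ := (mem_V_can w s).1 hs
    refine ⟨w₂, ?_, h2⟩
    simp only [Set.mem_ofPred_eq, List.mem_tails]
    exact ⟨w₁, h1.symm⟩
  exact ((List.finite_toSet w.tails).image _).subset this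

/-! ## Munn's theorem -/

variable [DecidableEq A]

/-- the idempotent `r⁻¹ r` for the reduced word `r` of `g` -/
def ee (g : FreeGroup A) : FreeInvMonoid A := can (winv g.toWord) * can g.toWord

theorem ee_comm (g h : FreeGroup A) : ee g * ee h = ee h * ee g := by
  have := can_commute (winv g.toWord) (winv h.toWord)
  simp only [winv_winv] at this
  exact this

theorem can_ee (g : FreeGroup A) : can g.toWord * ee g = can g.toWord := by
  unfold ee
  rw [← mul_assoc]
  exact can_regular _

theorem ee_idem (g : FreeGroup A) : ee g * ee g = ee g := by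
  have h := can_regular (winv g.toWord)
  rw [winv_winv] at h
  unfold ee
  rw [← mul_assoc, h]

/-- the product of the idempotents of all suffixes -/
def PP : Word A → FreeInvMonoid A
  | [] => ee 1
  | x :: w => PP w * ee (FreeGroup.mk (x :: w))

theorem PP_comm (w : Word A) (g : FreeGroup A) : PP w * ee g = ee g * PP w := by
  induction w with
  | nil => exact ee_comm _ _
  | cons x w ih => rw [PP, mul_assoc, ee_comm, ← mul_assoc, ih, mul_assoc]

theorem PP_PP_comm (w w' : Word A) : PP w * PP w' = PP w' * PP w := by
  induction w' with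
  | nil => exact PP_comm _ _
  | cons x w' ih => rw [PP, ← mul_assoc, ih, mul_assoc, PP_comm, ← mul_assoc]

theorem PP_absorb (w : Word A) : PP w * ee (FreeGroup.mk w) = PP w := by
  cases w with
  | nil => exact ee_idem _
  | cons x w => rw [PP, mul_assoc, ee_idem]

/-- reduced words of `w` and `x w` -/
theorem reduce_cases (x : A × Bool) (w : Word A) :
    (FreeGroup.mk (x :: w)).toWord = x :: (FreeGroup.mk w).toWord ∨
      (FreeGroup.mk w).toWord = (x.1, !x.2) :: (FreeGroup.mk (x :: w)).toWord := by
  rw [FreeGroup.toWord_mk, FreeGroup.toWord_mk, FreeGroup.reduce.cons]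
  cases h : FreeGroup.reduce w with
  | nil => left; rfl
  | cons y t =>
    dsimp only
    by_cases h1 : x.1 = y.1 ∧ x.2 = !y.2
    · right
      rw [if_pos h1]
      obtain ⟨a, b⟩ := y
      simp only at h1
      rw [h1.1, h1.2]
      simp
    · left
      rw [if_neg h1]

/-- the normal form -/
theorem can_eq (w : Word A) : can w = can (FreeGroup.mk w).toWord * PP w := by
  induction w with
  | nil =>
    have h : (FreeGroup.mk ([] : Word A)).toWord = [] := rfl
    have h2 := can_ee (1 : FreeGroup A)
    rw [FreeGroup.toWord_one] at h2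
    rw [h]
    exact h2.symm
  | cons x w ih =>
    have h0 : can (x :: w) = can [x] * can w := can_append [x] w
    have hR : can (FreeGroup.mk (x :: w)).toWord * PP (x :: w) =
        can (FreeGroup.mk (x :: w)).toWord * PP w := by
      rw [PP, PP_comm, ← mul_assoc, can_ee]
    rw [h0, hR, ih]
    rcases reduce_cases x w with h | h
    · rw [h]
      have h1 : can (x :: (FreeGroup.mk w).toWord) = can [x] * can (FreeGroup.mk w).toWord :=
        can_append [x] _
      rw [h1, mul_assoc]
    · set r := (FreeGroup.mk (x :: w)).toWord with hr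
      have h1 : can (FreeGroup.mk w).toWord = can (winv [x]) * can r := by
        rw [h]; exact can_append [(x.1, !x.2)] r
      have h2 : ee (FreeGroup.mk w) = can (winv r) * can [x] * (can (winv [x]) * can r) := by
        unfold ee
        rw [h]
        have e1 : winv ((x.1, !x.2) :: r) = winv r ++ [x] := by
          simp [winv]
        rw [e1, can_append]
        rfl
      have h3 : can [x] * (can (winv [x]) * can r) = can r * ee (FreeGroup.mk w) := by
        rw [h2]
        calc can [x] * (can (winv [x]) * can r)
            = can [x] * can (winv [x]) * (can r * can (winv r) * can r) := by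
              rw [can_regular, mul_assoc]
          _ = can [x] * can (winv [x]) * (can r * can (winv r)) * can r := by
              simp only [mul_assoc]
          _ = can r * can (winv r) * (can [x] * can (winv [x])) * can r := by
              rw [can_commute]
          _ = can r * (can (winv r) * can [x] * (can (winv [x]) * can r)) := by
              simp only [mul_assoc]
      rw [h1, ← mul_assoc, h3, mul_assoc, ← PP_comm, PP_absorb]

theorem PP_mem (w : Word A) (g : FreeGroup A) (hg : g ∈ V (can w)) : PP w * ee g = PP w := by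
  obtain ⟨w₁, w₂, h1, h2⟩ := (mem_V_can w g).1 hg
  subst h1
  subst h2
  clear hg
  induction w₁ with
  | nil => exact PP_absorb _
  | cons x w₁ ih =>
    have : x :: w₁ ++ w₂ = x :: (w₁ ++ w₂) := rfl
    rw [this, PP, mul_assoc, ee_comm, ← mul_assoc, ih]

theorem PP_sub (w w' : Word A) (h : ∀ g ∈ V (can w'), g ∈ V (can w)) :
    PP w * PP w' = PP w := by
  have key : ∀ v : Word A, (∀ g ∈ V (can v), g ∈ V (can w)) → PP w * PP v = PP w := by
    intro v
    induction v with
    | nil => intro hv; exact PP_mem w _ (hv _ (one_mem_V _))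
    | cons x v ih =>
      intro hv
      rw [PP, ← mul_assoc, ih, PP_mem]
      · apply hv
        have := bar_mem_V (can (x :: v))
        rwa [bar_can] at this
      · intro g hg
        apply hv
        have h0 : can (x :: v) = can [x] * can v := can_append [x] v
        rw [h0, mem_V_mul]
        exact Or.inl hg
  exact key w' h

/-- **Munn's theorem** -/
theorem munn {x y : FreeInvMonoid A} (hV : V x = V y) (hb : bar x = bar y) : x = y := by
  obtain ⟨w, rfl⟩ := can_surj x
  obtain ⟨w', rfl⟩ := can_surj y
  rw [bar_can, bar_can] at hb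
  rw [can_eq w, can_eq w', hb]
  congr 1
  have h1 : PP w * PP w' = PP w := PP_sub w w' (fun g hg => by rw [hV]; exact hg)
  have h2 : PP w' * PP w = PP w' := PP_sub w' w (fun g hg => by rw [← hV]; exact hg)
  rw [← h1, PP_PP_comm, h2]

end Pool.Agent.Helper25.FIM
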