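import Mathlib
import Pool.Agent.Helper25.FIM.Munn

set_option autoImplicit false

/-!
# Endomorphisms of the free inverse monoid: bounded elements and fixed points
-/

namespace Pool.Agent.Helper25.FIM

open Function

variable {A : Type} [DecidableEq A]

theorem mu_inj : Injective (mu : FreeInvMonoid A → Munn A) := by
  intro x y h
  exact munn (congrArg Munn.S h) (congrArg Munn.g h)

/-- an inverse -/
noncomputable def iv (x : FreeInvMonoid A) : FreeInvMonoid A := can (winv (Classical.choose (can_surj x)))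

omit [DecidableEq A] in
theorem mu_iv (x : FreeInvMonoid A) : mu (iv x) = (mu x).iv := by
  have h := Classical.choose_spec (can_surj x)
  unfold iv
  conv_rhs => rw [← h]
  rw [mu_can, mu_can, toMunn_inv]

theorem mul_iv_mul (x : FreeInvMonoid A) : x * iv x * x = x := by
  apply mu_inj
  rw [map_mul, map_mul, mu_iv, Munn.mul_iv_mul]

theorem iv_mul_iv (x : FreeInvMonoid A) : iv x * x * iv x = iv x := by
  apply mu_inj
  rw [map_mul, map_mul, mu_iv]
  have h := Munn.mul_iv_mul (mu x).iv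
  have h2 : (mu x).iv.iv = mu x := by
    ext s
    · simp [Munn.mem_iv, Munn.iv_g]
    · simp [Munn.iv_g]
  rwa [h2] at h

theorem eq_iv {x y : FreeInvMonoid A} (h1 : x * y * x = x) (h2 : y * x * y = y) : y = iv x := by
  apply mu_inj
  rw [mu_iv]
  apply Munn.eq_iv
  · rw [← map_mul, ← map_mul, h1]
  · rw [← map_mul, ← map_mul, h2]

omit [DecidableEq A] in
theorem bar_iv (x : FreeInvMonoid A) : bar (iv x) = (bar x)⁻¹ := by
  change (mu (iv x)).g = _
  rw [mu_iv]; rfl

omit [DecidableEq A] in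
theorem bar_e (x : FreeInvMonoid A) : bar (iv x * x) = 1 := by
  rw [map_mul, bar_iv, inv_mul_cancel]

omit [DecidableEq A] in
theorem mem_V_e (x : FreeInvMonoid A) (s : FreeGroup A) : s ∈ V (iv x * x) ↔ s ∈ V x := by
  rw [mem_V_mul]
  have : s * (bar x)⁻¹ ∈ V (iv x) ↔ s ∈ V x := by
    change _ ∈ (mu (iv x)).S ↔ _
    rw [mu_iv, Munn.mem_iv]
    change s * (bar x)⁻¹ * bar x ∈ V x ↔ _
    rw [inv_mul_cancel_right]
  rw [this, or_self]

variable (φ : FreeInvMonoid A →* FreeInvMonoid A)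

theorem map_iv (x : FreeInvMonoid A) : φ (iv x) = iv (φ x) := by
  apply eq_iv
  · rw [← map_mul, ← map_mul, mul_iv_mul]
  · rw [← map_mul, ← map_mul, iv_mul_iv]

theorem iter_iv (n : ℕ) (x : FreeInvMonoid A) : φ^[n] (iv x) = iv (φ^[n] x) := by
  induction n generalizing x with
  | zero => rfl
  | succ n ih => rw [iterate_succ_apply, iterate_succ_apply, map_iv, ih]

/-- the induced endomorphism of the free group -/
def phb : FreeGroup A →* FreeGroup A := FreeGroup.lift fun a => bar (φ (can [(a, true)]))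

omit [DecidableEq A] in
theorem bar_phi (x : FreeInvMonoid A) : bar (φ x) = phb φ (bar x) := by
  obtain ⟨w, rfl⟩ := can_surj x
  have hl : ∀ x : A × Bool, bar (φ (can [x])) = phb φ (bar (can [x])) := by
    have h1 : ∀ a : A, bar (φ (can [(a, true)])) = phb φ (bar (can [(a, true)])) := by
      intro a
      rw [bar_can]
      have : FreeGroup.mk [(a, true)] = FreeGroup.of a := rfl
      rw [this]
      simp [phb]
    rintro ⟨a, b⟩
    cases b with
    | true => exact h1 a
    | false =>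
      have h2 := can_regular [(a, true)]
      have e : winv [(a, true)] = [(a, false)] := rfl
      rw [e] at h2
      have h3 : bar (φ (can [(a, false)])) = (bar (φ (can [(a, true)])))⁻¹ := by
        have := congrArg (fun t => bar (φ t)) h2
        simp only [map_mul] at this
        have h4 : bar (φ (can [(a, true)])) * bar (φ (can [(a, false)])) = 1 := by
          simpa using this
        exact eq_inv_of_mul_eq_one_right h4
      rw [h3, h1, bar_can, bar_can, ← map_inv]
      congr 1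
  induction w with
  | nil => rw [can_nil, map_one, map_one, map_one]
  | cons x w ih =>
    have h0 : can (x :: w) = can [x] * can w := can_append [x] w
    rw [h0, map_mul, map_mul, map_mul, map_mul, hl, ih]

omit [DecidableEq A] in
theorem bar_iter (n : ℕ) (x : FreeInvMonoid A) : bar (φ^[n] x) = (phb φ)^[n] (bar x) := by
  induction n generalizing x with
  | zero => rfl
  | succ n ih => rw [iterate_succ_apply, iterate_succ_apply, ih, bar_phi]

omit [DecidableEq A] in
theorem V_phi (x : FreeInvMonoid A) (s : FreeGroup A) (hs : s ∈ V x) : phb φ s ∈ V (φ x) := by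
  obtain ⟨w, rfl⟩ := can_surj x
  obtain ⟨w₁, w₂, h1, h2⟩ := (mem_V_can w s).1 hs
  rw [h1, can_append, map_mul, mem_V_mul]
  left
  have := bar_mem_V (φ (can w₂))
  rwa [bar_phi, bar_can, h2] at this

omit [DecidableEq A] in
theorem V_fix {x : FreeInvMonoid A} (hx : φ x = x) (n : ℕ) (s : FreeGroup A) (hs : s ∈ V x) :
    (phb φ)^[n] s ∈ V x := by
  induction n generalizing s with
  | zero => exact hs
  | succ n ih =>
    rw [iterate_succ_apply]
    apply ih
    have := V_phi φ x s hs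
    rwa [hx] at this

/-! ## bounded elements -/

/-- the elements with a finite orbit -/
def Bd : Set (FreeInvMonoid A) := {y | (Set.range fun m : ℕ => φ^[m] y).Finite}

omit [DecidableEq A] in
theorem Bd_V {y : FreeInvMonoid A} (hy : y ∈ Bd φ) :
    ∃ F : Set (FreeGroup A), F.Finite ∧ ∀ m : ℕ, V (φ^[m] y) ⊆ F := by
  have hy' : (Set.range fun m : ℕ => φ^[m] y).Finite := hy
  refine ⟨⋃ x ∈ Set.range fun m : ℕ => φ^[m] y, V x, hy'.biUnion fun x _ => V_finite x, ?_⟩
  intro m s hs
  simp only [Set.mem_iUnion]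
  exact ⟨_, ⟨m, rfl⟩, hs⟩

theorem Bd_of_V {y : FreeInvMonoid A} {F : Set (FreeGroup A)} (hF : F.Finite)
    (h : ∀ m : ℕ, V (φ^[m] y) ⊆ F) : y ∈ Bd φ := by
  have h1 : (Set.range fun m : ℕ => φ^[m] y) ⊆
      (fun x : FreeInvMonoid A => (V x, bar x)) ⁻¹' (𝒫 F ×ˢ F) := by
    rintro _ ⟨m, rfl⟩
    exact ⟨h m, h m (bar_mem_V _)⟩
  refine Set.Finite.subset (Set.Finite.preimage ?_ (hF.powerset.prod hF)) h1
  intro x _ y _ hxy
  have h2 := Prod.ext_iff.1 hxy
  exact munn h2.1 h2.2

theorem Bd_factor (y₁ z y₂ : FreeInvMonoid A) (h : y₁ * z * y₂ ∈ Bd φ) : z ∈ Bd φ := by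
  obtain ⟨F, hF, h1⟩ := Bd_V φ h
  refine Bd_of_V φ (F := Set.image2 (fun a b => a * b⁻¹) F F) (hF.image2 _ hF) ?_
  intro m s hs
  refine ⟨s * bar (φ^[m] y₂), ?_, bar (φ^[m] y₂), ?_, by simp⟩
  · apply h1 m
    rw [iterate_map_mul, iterate_map_mul, mem_V_mul]
    right
    rw [mul_inv_cancel_right, mem_V_mul]
    exact Or.inl hs
  · apply h1 m
    rw [iterate_map_mul, mem_V_mul]
    exact Or.inl (bar_mem_V _)

omit [DecidableEq A] in
theorem Bd_mul (y z : FreeInvMonoid A) (hy : y ∈ Bd φ) (hz : z ∈ Bd φ) : y * z ∈ Bd φ := by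
  have hy' : (Set.range fun m : ℕ => φ^[m] y).Finite := hy
  have hz' : (Set.range fun m : ℕ => φ^[m] z).Finite := hz
  refine Set.Finite.subset (hy'.image2 (fun a b => a * b) hz') ?_
  rintro _ ⟨m, rfl⟩
  refine ⟨φ^[m] y, ⟨m, rfl⟩, φ^[m] z, ⟨m, rfl⟩, ?_⟩
  simp only [iterate_map_mul]

omit [DecidableEq A] in
theorem Bd_fix {x : FreeInvMonoid A} (hx : φ x = x) : x ∈ Bd φ := by
  refine Set.Finite.subset (Set.finite_singleton x) ?_
  rintro _ ⟨m, rfl⟩
  exact iterate_fixed hx m

omit [DecidableEq A] in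
theorem Bd_one : (1 : FreeInvMonoid A) ∈ Bd φ := Bd_fix φ (map_one φ)

omit [DecidableEq A] in
theorem Bd_iter {x : FreeInvMonoid A} (hx : x ∈ Bd φ) (n : ℕ) : φ^[n] x ∈ Bd φ := by
  have hx' : (Set.range fun m : ℕ => φ^[m] x).Finite := hx
  refine hx'.subset ?_
  rintro _ ⟨m, rfl⟩
  exact ⟨m + n, iterate_add_apply _ _ _ _⟩

omit [DecidableEq A] in
theorem exists_n (y : FreeInvMonoid A) : ∃ n : ℕ, 0 < n ∧ (y ∈ Bd φ →
    ∀ K : ℕ, 0 < K → n ∣ K → φ^[K + K] y = φ^[K] y) := by
  by_cases hx : y ∈ Bd φ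
  · have hx' : (Set.range fun m : ℕ => φ^[m] y).Finite := hx
    obtain ⟨i, j, hij, he⟩ : ∃ i j : ℕ, i < j ∧ φ^[i] y = φ^[j] y :=
      Set.Finite.exists_lt_map_eq_of_forall_mem (t := Set.range fun m : ℕ => φ^[m] y)
        (f := fun m : ℕ => φ^[m] y) (fun m => Set.mem_range_self m) hx'
    refine ⟨(j - i) * (i + 1), Nat.mul_pos (by omega) (by omega), ?_⟩
    intro _ K hK hd
    have hiK : i ≤ K := by
      have h1 := Nat.le_of_dvd hK hd
      have h2 : i + 1 ≤ (j - i) * (i + 1) := Nat.le_mul_of_pos_left _ (by omega)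
      omega
    have h1 : φ^[j - i] (φ^[i] y) = φ^[i] y := by
      rw [← iterate_add_apply, show j - i + i = j by omega, ← he]
    have h2 : φ^[K] y = φ^[K - i] (φ^[i] y) := by
      rw [← iterate_add_apply, show K - i + i = K by omega]
    have h3 : IsPeriodicPt φ (j - i) (φ^[K] y) := by
      change φ^[j - i] (φ^[K] y) = φ^[K] y
      rw [h2, ← iterate_add_apply, add_comm, iterate_add_apply, h1]
    obtain ⟨c, hc⟩ := hd
    have h4 : IsPeriodicPt φ ((j - i) * ((i + 1) * c)) (φ^[K] y) := h3.mul_const _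
    rw [← mul_assoc, ← hc] at h4
    rw [iterate_add_apply]
    exact h4
  · exact ⟨1, one_pos, fun h => absurd h hx⟩

theorem exists_k [Finite A] :
    ∃ k : ℕ, 0 < k ∧ ∀ y ∈ Bd φ, φ^[k + k] y = φ^[k] y := by
  classical
  haveI := Fintype.ofFinite A
  choose n hn1 hn2 using fun x : A × Bool => exists_n φ (can [x])
  have hpos : 0 < ∏ x, n x := Finset.prod_pos fun x _ => hn1 x
  refine ⟨∏ x, n x, hpos, ?_⟩
  intro y hy
  obtain ⟨w, rfl⟩ := can_surj y
  induction w with
  | nil => rw [can_nil, iterate_map_one, iterate_map_one]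
  | cons x w ih =>
    have h0 : can (x :: w) = can [x] * can w := can_append [x] w
    rw [h0] at hy ⊢
    have h1 : can [x] ∈ Bd φ := by
      apply Bd_factor φ 1 (can [x]) (can w)
      rwa [one_mul]
    have h2 : can w ∈ Bd φ := by
      apply Bd_factor φ (can [x]) (can w) 1
      rwa [mul_one]
    rw [iterate_map_mul, iterate_map_mul, ih h2,
      hn2 x h1 _ hpos (Finset.dvd_prod_of_mem n (Finset.mem_univ x))]

/-! ## fixed idempotents -/

/-- finite products -/
noncomputable def GG (e : FreeInvMonoid A) : ℕ → FreeInvMonoid A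
  | 0 => 1
  | j + 1 => GG e j * φ^[j] e

omit [DecidableEq A] in
theorem bar_iter_one {e : FreeInvMonoid A} (he : bar e = 1) (j : ℕ) : bar (φ^[j] e) = 1 := by
  rw [bar_iter, he, iterate_map_one]

omit [DecidableEq A] in
theorem bar_GG {e : FreeInvMonoid A} (he : bar e = 1) (j : ℕ) : bar (GG φ e j) = 1 := by
  induction j with
  | zero => exact map_one _
  | succ j ih => rw [GG, map_mul, ih, bar_iter_one φ he, one_mul]

theorem comm_of_bar {x y : FreeInvMonoid A} (hx : bar x = 1) (hy : bar y = 1) : x * y = y * x := by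
  apply munn
  · ext s
    rw [mem_V_mul, mem_V_mul, hx, hy, inv_one, mul_one, or_comm]
  · rw [map_mul, map_mul, hx, hy]

omit [DecidableEq A] in
theorem GG_succ (e : FreeInvMonoid A) (j : ℕ) : e * φ (GG φ e j) = GG φ e (j + 1) := by
  induction j with
  | zero => simp [GG]
  | succ j ih =>
    rw [GG, map_mul, ← mul_assoc, ih]
    conv_rhs => rw [GG]
    rw [iterate_succ_apply']

omit [DecidableEq A] in
theorem mem_V_GG {e : FreeInvMonoid A} (he : bar e = 1) (j : ℕ) (s : FreeGroup A) :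
    s ∈ V (GG φ e j) ↔ s = 1 ∨ ∃ i < j, s ∈ V (φ^[i] e) := by
  induction j with
  | zero => simp [GG, mem_V_one]
  | succ j ih =>
    rw [GG, mem_V_mul, bar_iter_one φ he, inv_one, mul_one, ih]
    constructor
    · rintro (h | h | ⟨i, h1, h2⟩)
      · exact Or.inr ⟨j, by omega, h⟩
      · exact Or.inl h
      · exact Or.inr ⟨i, by omega, h2⟩
    · rintro (h | ⟨i, h1, h2⟩)
      · exact Or.inr (Or.inl h)
      · rcases Nat.lt_succ_iff_lt_or_eq.1 h1 with h3 | h3
        · exact Or.inr (Or.inr ⟨i, h3, h2⟩)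
        · subst h3
          exact Or.inl h2

/-- the fixed idempotent over a periodic element -/
theorem exists_G {z : FreeInvMonoid A} {k : ℕ} (hk : 0 < k) (hz : φ^[k] z = z) :
    ∃ G : FreeInvMonoid A, φ G = G ∧ bar G = 1 ∧ ∀ s, s ∈ V G ↔ ∃ i, s ∈ V (φ^[i] z) := by
  have he : bar (iv z * z) = 1 := bar_e z
  have hVe : ∀ i s, s ∈ V (φ^[i] (iv z * z)) ↔ s ∈ V (φ^[i] z) := by
    intro i s
    rw [iterate_map_mul, iter_iv, mem_V_e]
  have hke : φ^[k] (iv z * z) = iv z * z := by
    rw [iterate_map_mul, iter_iv, hz]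
  refine ⟨GG φ (iv z * z) k, ?_, bar_GG φ he k, ?_⟩
  · obtain ⟨j, rfl⟩ : ∃ j, k = j + 1 := ⟨k - 1, by omega⟩
    have h1 : φ (GG φ (iv z * z) j) * (iv z * z) = (iv z * z) * φ (GG φ (iv z * z) j) := by
      apply comm_of_bar _ he
      rw [bar_phi, bar_GG φ he, map_one]
    conv_lhs => rw [GG]
    rw [map_mul, ← iterate_succ_apply' (⇑φ), hke, h1, GG_succ]
  · intro s
    rw [mem_V_GG φ he]
    constructor
    · rintro (h | ⟨i, _, h⟩)
      · subst h
        exact ⟨0, one_mem_V _⟩
      · exact ⟨i, (hVe i s).1 h⟩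
    · rintro ⟨i, h⟩
      right
      refine ⟨i % k, Nat.mod_lt _ hk, ?_⟩
      rw [hVe]
      have hp : IsPeriodicPt φ k z := hz
      rwa [hp.iterate_mod_apply]

end Pool.Agent.Helper25.FIM
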