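import Mathlib
import Pool.Agent.TH138.LG.Pump

set_option autoImplicit false

/-!
# A shrinking lemma with a bounded window for context-free languages
-/

namespace Pool.Agent.Helper25.FIM

open Pool.Agent.TH138.LG

variable {T : Type}

/-- the grammar with another initial symbol -/
abbrev reinit (g : ContextFreeGrammar T) (X : g.NT) : ContextFreeGrammar T :=
  { g with initial := X }

/-- derivations do not depend on the initial symbol -/
theorem dl_initial {g : ContextFreeGrammar T} (X : g.NT) {α : List (Symbol T g.NT)} {w : List T}
    (h : DL g α w) : DL (reinit g X) α w := by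
  induction h with
  | nil => exact DL.nil
  | term a _ ih => exact DL.term a ih
  | nt r hr _ _ ih1 ih2 => exact DL.nt (g := reinit g X) r hr ih1 ih2

theorem dl_initial' {g : ContextFreeGrammar T} (X : g.NT)
    {α : List (Symbol T (reinit g X).NT)} {w : List T}
    (h : DL (reinit g X) α w) : @DL T g α w := by
  induction h with
  | nil => exact DL.nil (g := g)
  | term a _ ih => exact DL.term (g := g) a ih
  | nt r hr _ _ ih1 ih2 => exact DL.nt (g := g) r hr ih1 ih2

/-- a window of length at most `K` in which `w` can be shrunk -/
def Win (g : ContextFreeGrammar T) (K : ℕ) (α : List (Symbol T g.NT)) (w : List T) : Prop :=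
  ∃ u v x y z : List T, w = u ++ (v ++ x ++ y) ++ z ∧ (v ++ x ++ y).length ≤ K ∧
    (v ≠ [] ∨ y ≠ []) ∧ DL g α (u ++ x ++ z)

theorem window (g : ContextFreeGrammar T) {α : List (Symbol T g.NT)} {w : List T}
    (h : DL g α w) :
    w.length ≤ α.length * width g ^ (inputs g).card ∨
      Win g (width g * width g ^ (inputs g).card) α w := by
  have hK0 : 1 ≤ width g ^ (inputs g).card := Nat.one_le_pow _ _ width_pos
  induction h with
  | nil => left; simp
  | @term a l w _ ih =>
    rcases ih with ih | ⟨u, v, x, y, z, rfl, h1, h2, h3⟩
    · left
      simp only [List.length_cons]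
      rw [Nat.add_mul]
      omega
    · right
      exact ⟨a :: u, v, x, y, z, by simp, h1, h2, DL.term a h3⟩
  | @nt r hr w₁ w₂ l hd1 hd2 ih1 ih2 =>
    rcases ih1 with ih1 | ⟨u, v, x, y, z, rfl, h1, h2, h3⟩
    · have h4 : w₁.length ≤ width g * width g ^ (inputs g).card :=
        ih1.trans (Nat.mul_le_mul_right _ (length_le_width hr))
      by_cases h5 : w₁.length ≤ width g ^ (inputs g).card
      · rcases ih2 with ih2 | ⟨u, v, x, y, z, rfl, h1, h2, h3⟩
        · left
          simp only [List.length_cons, List.length_append]
          rw [Nat.add_mul]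
          omega
        · right
          refine ⟨w₁ ++ u, v, x, y, z, by simp, h1, h2, ?_⟩
          simpa [List.append_assoc] using DL.nt r hr hd1 h3
      · right
        have h6 : w₁ ∈ (reinit g r.input).language := by
          rw [mem_language]
          apply dl_initial
          simpa using DL.nt r hr hd1 DL.nil
        obtain ⟨u, v, x, y, z, e1, e2, e3⟩ := pumping h6 (by simpa [width, inputs] using h5)
        have h7 := e3 0
        rw [mem_language] at h7
        have h8 := dl_initial' _ h7
        simp only [List.replicate_zero, List.flatten_nil, List.append_nil] at h8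
        refine ⟨u, v, x, y, z ++ w₂, ?_, ?_, e2, ?_⟩
        · rw [e1]; simp
        · refine le_trans ?_ h4
          rw [e1]
          simp only [List.length_append]
          omega
        · have h9 : DL g ([Symbol.nonterminal r.input] ++ l) ((u ++ x ++ z) ++ w₂) :=
            DL.append h8 hd2
          simpa [List.append_assoc] using h9
    · right
      refine ⟨u, v, x, y, z ++ w₂, by simp, h1, h2, ?_⟩
      simpa [List.append_assoc] using DL.nt r hr h3 hd2

/-- **Shrinking lemma**: a long word of a context-free language stays in the language after two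
factors inside a window of bounded length are removed. -/
theorem shrink {L : Language T} (hL : L.IsContextFree) :
    ∃ K : ℕ, ∀ w ∈ L, K < w.length →
      ∃ u v x y z : List T, w = u ++ (v ++ x ++ y) ++ z ∧ (v ++ x ++ y).length ≤ K ∧
        (v ≠ [] ∨ y ≠ []) ∧ u ++ x ++ z ∈ L := by
  obtain ⟨g, rfl⟩ := hL
  refine ⟨width g * width g ^ (inputs g).card, fun w hw hl => ?_⟩
  rcases window g (mem_language.1 hw) with h | ⟨u, v, x, y, z, h1, h2, h3, h4⟩
  · exfalso
    simp only [List.length_singleton, one_mul] at h
    have : width g ^ (inputs g).card ≤ width g * width g ^ (inputs g).card :=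
      Nat.le_mul_of_pos_left _ width_pos
    omega
  · exact ⟨u, v, x, y, z, h1, h2, h3, mem_language.2 h4⟩

end Pool.Agent.Helper25.FIM
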