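import Mathlib
import Pool.Agent.Helper25.FIM.Fix
import Pool.Agent.Helper25.FIM.Shrink

set_option autoImplicit false

/-!
# Context-free fixed point submonoids are finitely generated
-/

namespace Pool.Agent.Helper25.FIM

open Function

/-- The submonoid `Fix φ` of fixed points. -/
def Fix {A : Type} (φ : FreeInvMonoid A →* FreeInvMonoid A) : Submonoid (FreeInvMonoid A) where
  carrier := {x | φ x = x}
  one_mem' := map_one φ
  mul_mem' := by
    intro a b ha hb
    have ha : φ a = a := ha
    have hb : φ b = b := hb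
    change φ (a * b) = a * b
    rw [map_mul, ha, hb]

variable {A : Type} [DecidableEq A] (φ : FreeInvMonoid A →* FreeInvMonoid A)

omit [DecidableEq A] in
theorem mem_Fix (x : FreeInvMonoid A) : x ∈ Fix φ ↔ φ x = x := Iff.rfl

theorem fg_of_trivial [Finite A] {k : ℕ} (hk : 0 < k)
    (hk2 : ∀ y ∈ Bd φ, φ^[k + k] y = φ^[k] y)
    (h : ∀ y ∈ Bd φ, phb φ (bar (φ^[k] y)) = bar (φ^[k] y)) : (Fix φ).FG := by
  classical
  have hG : ∀ y : FreeInvMonoid A, ∃ G : FreeInvMonoid A, y ∈ Bd φ →
      φ G = G ∧ bar G = 1 ∧ ∀ s, s ∈ V G ↔ ∃ i, s ∈ V (φ^[i] (φ^[k] y)) := by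
    intro y
    by_cases hy : y ∈ Bd φ
    · obtain ⟨G, h1⟩ := exists_G φ (z := φ^[k] y) hk (by rw [← iterate_add_apply, hk2 y hy])
      exact ⟨G, fun _ => h1⟩
    · exact ⟨1, fun h => absurd h hy⟩
  choose G hG using hG
  set N : FreeInvMonoid A → FreeInvMonoid A := fun y => φ^[k] y * G y with hN
  have hNV : ∀ y ∈ Bd φ, ∀ s, s ∈ V (N y) ↔ ∃ i, s ∈ V (φ^[i] (φ^[k] y)) := by
    intro y hy s
    obtain ⟨h1, h2, h3⟩ := hG y hy
    rw [hN]
    simp only
    rw [mem_V_mul, h2, inv_one, mul_one, h3]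
    constructor
    · rintro (h4 | h4)
      · exact h4
      · exact ⟨0, h4⟩
    · exact Or.inl
  have hNb : ∀ y ∈ Bd φ, bar (N y) = bar (φ^[k] y) := by
    intro y hy
    obtain ⟨h1, h2, h3⟩ := hG y hy
    rw [hN]
    simp only
    rw [map_mul, h2, mul_one]
  have hNfix : ∀ y ∈ Bd φ, φ (N y) = N y := by
    intro y hy
    obtain ⟨h1, h2, h3⟩ := hG y hy
    apply munn
    · ext s
      have h4 : φ (N y) = φ (φ^[k] y) * G y := by
        rw [hN]; simp only; rw [map_mul, h1]
      rw [h4, mem_V_mul, h2, inv_one, mul_one, hNV y hy, h3]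
      constructor
      · rintro (h4 | h4)
        · exact h4
        · exact ⟨1, h4⟩
      · exact Or.inl
    · rw [bar_phi, hNb y hy, h y hy]
  have hNmul : ∀ y ∈ Bd φ, ∀ z ∈ Bd φ, N (y * z) = N y * N z := by
    intro y hy z hz
    have hi : ∀ i, bar (φ^[i] (φ^[k] z)) = bar (φ^[k] z) := by
      intro i
      rw [bar_iter]
      exact iterate_fixed (h z hz) i
    apply munn
    · ext s
      rw [hNV _ (Bd_mul φ y z hy hz), mem_V_mul, hNV y hy, hNV z hz, hNb z hz, ← exists_or]
      apply exists_congr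
      intro i
      rw [iterate_map_mul, iterate_map_mul, mem_V_mul, hi]
    · rw [hNb _ (Bd_mul φ y z hy hz), map_mul bar (N y) (N z), hNb y hy, hNb z hz,
        iterate_map_mul, map_mul]
  have hNx : ∀ x, φ x = x → N x = x := by
    intro x hx
    have hi : ∀ i, φ^[i] x = x := fun i => iterate_fixed hx i
    apply munn
    · ext s
      rw [hNV x (Bd_fix φ hx)]
      simp only [hi, exists_const]
    · rw [hNb x (Bd_fix φ hx), hi]
  rw [Submonoid.fg_iff]
  refine ⟨Set.range fun x : A × Bool => if can [x] ∈ Bd φ then N (can [x]) else 1, ?_,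
    Set.finite_range _⟩
  apply le_antisymm
  · rw [Submonoid.closure_le]
    rintro _ ⟨x, rfl⟩
    by_cases hx : can [x] ∈ Bd φ
    · simp only [if_pos hx]
      exact hNfix _ hx
    · simp only [if_neg hx]
      exact map_one φ
  · intro x hx0
    have hx : φ x = x := hx0
    rw [← hNx x hx]
    have hb : x ∈ Bd φ := Bd_fix φ hx
    clear hx hx0
    obtain ⟨w, rfl⟩ := can_surj x
    induction w with
    | nil =>
      rw [can_nil, hNx 1 (map_one φ)]
      exact Submonoid.one_mem _
    | cons x w ih =>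
      have h0 : can (x :: w) = can [x] * can w := can_append [x] w
      rw [h0] at hb ⊢
      have h1 : can [x] ∈ Bd φ := by
        apply Bd_factor φ 1 (can [x]) (can w)
        rwa [one_mul]
      have h2 : can w ∈ Bd φ := by
        apply Bd_factor φ (can [x]) (can w) 1
        rwa [mul_one]
      rw [hNmul _ h1 _ h2]
      refine Submonoid.mul_mem _ (Submonoid.subset_closure ⟨x, ?_⟩) (ih h2)
      simp only [if_pos h1]

/-! ## the context-free case -/

omit [DecidableEq A] in
theorem diff (w : Word A) {s s' : FreeGroup A} (h : s ∈ V (can w)) (h' : s' ∈ V (can w)) :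
    ∃ v : Word A, v.length ≤ w.length ∧ FreeGroup.mk v = s' * s⁻¹ := by
  obtain ⟨a, b, h1, rfl⟩ := (mem_V_can w s).1 h
  obtain ⟨a', b', h1', rfl⟩ := (mem_V_can w s').1 h'
  have hl : w.length = a.length + b.length := by rw [h1, List.length_append]
  have hl' : w.length = a'.length + b'.length := by rw [h1', List.length_append]
  rcases List.append_eq_append_iff.1 (h1.symm.trans h1') with ⟨c, h2, h3⟩ | ⟨c, h2, h3⟩
  · -- b = c ++ b'
    refine ⟨FreeGroup.invRev c, ?_, ?_⟩
    · rw [FreeGroup.invRev_length]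
      have := congrArg List.length h3
      rw [List.length_append] at this
      omega
    · rw [h3, ← FreeGroup.mul_mk, ← FreeGroup.inv_mk]
      group
  · refine ⟨c, ?_, ?_⟩
    · have := congrArg List.length h3
      rw [List.length_append] at this
      omega
    · rw [h3, ← FreeGroup.mul_mk]
      group

omit [DecidableEq A] in
theorem mem_three (u v z : Word A) (s : FreeGroup A) :
    s ∈ V (can (u ++ v ++ z)) ↔ s ∈ V (can z) ∨ s * (FreeGroup.mk z)⁻¹ ∈ V (can v) ∨
      s * (FreeGroup.mk (v ++ z))⁻¹ ∈ V (can u) := by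
  rw [can_append, can_append, mem_V_mul, mem_V_mul, bar_can, bar_can, ← FreeGroup.mul_mk,
    mul_inv_rev, mul_assoc]

omit [DecidableEq A] in
theorem key {k : ℕ} {h : FreeGroup A} (hk : 0 < k) (hh : (phb φ)^[k] h = h)
    {L : Language (A × Bool)} (hfix : ∀ w ∈ L, φ (can w) = can w) {K : ℕ}
    (hK : ∀ w ∈ L, K < w.length →
      ∃ u v x y z : Word A, w = u ++ (v ++ x ++ y) ++ z ∧ (v ++ x ++ y).length ≤ K ∧
        (v ≠ [] ∨ y ≠ []) ∧ u ++ x ++ z ∈ L) (n : ℕ) (m : ℕ) :
    ∀ w ∈ L, w.length = m → (∃ f, phb φ f = f ∧ h ^ n * f ∈ V (can w)) →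
      ∃ v : Word A, v.length ≤ K ∧ FreeGroup.mk v = (phb φ h) ^ n * (h ^ n)⁻¹ := by
  induction m using Nat.strong_induction_on with
  | _ m ih =>
    rintro w hw hm ⟨f, hf, hq⟩
    have hq' : (phb φ h) ^ n * f ∈ V (can w) := by
      have := V_fix φ (hfix w hw) 1 _ hq
      simpa [hf] using this
    by_cases hlen : w.length ≤ K
    · obtain ⟨v, h1, h2⟩ := diff w hq hq'
      refine ⟨v, h1.trans hlen, ?_⟩
      rw [h2]; group
    · obtain ⟨u, v, x, y, z, e1, e2, e3, e4⟩ := hK w hw (by omega)
      have hlt : (u ++ x ++ z).length < m := by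
        rw [← hm, e1]
        simp only [List.length_append]
        rcases e3 with e3 | e3
        · have := List.length_pos_iff.2 e3; omega
        · have := List.length_pos_iff.2 e3; omega
      by_cases hex : ∃ f, phb φ f = f ∧ h ^ n * f ∈ V (can (u ++ x ++ z))
      · exact ih _ hlt _ e4 rfl hex
      · have hno : ∀ f, phb φ f = f → h ^ n * f ∉ V (can (u ++ x ++ z)) := by
          intro f h1 h2
          exact hex ⟨f, h1, h2⟩
        have hno' : ∀ f, phb φ f = f → (phb φ h) ^ n * f ∉ V (can (u ++ x ++ z)) := by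
          intro f h1 h2
          apply hno f h1
          have h3 := V_fix φ (hfix _ e4) (k - 1) _ h2
          have h4 : (phb φ)^[k - 1] ((phb φ h) ^ n * f) = h ^ n * f := by
            have h5 : (phb φ h) ^ n * f = phb φ (h ^ n * f) := by
              rw [map_mul, map_pow, h1]
            rw [h5, ← iterate_succ_apply, show (k - 1).succ = k by omega, iterate_map_mul,
              iterate_map_pow, hh, iterate_fixed h1]
          rwa [h4] at h3
        have p1 : phb φ (FreeGroup.mk w) = FreeGroup.mk w := by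
          have := congrArg bar (hfix w hw)
          rwa [bar_phi, bar_can] at this
        have p2 : phb φ (FreeGroup.mk (u ++ x ++ z)) = FreeGroup.mk (u ++ x ++ z) := by
          have := congrArg bar (hfix _ e4)
          rwa [bar_phi, bar_can] at this
        set f₁ : FreeGroup A := (FreeGroup.mk (u ++ x ++ z))⁻¹ * FreeGroup.mk w with hf₁
        have p3 : phb φ f₁ = f₁ := by rw [hf₁, map_mul, map_inv, p1, p2]
        have p4 : FreeGroup.mk (v ++ x ++ y ++ z) = FreeGroup.mk (x ++ z) * f₁ := by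
          rw [hf₁, e1]
          simp only [← FreeGroup.mul_mk, List.append_assoc]
          group
        have hout : ∀ g : FreeGroup A,
            (∀ f, phb φ f = f → g * f ∉ V (can (u ++ x ++ z))) → g * f ∈ V (can w) →
            g * f * (FreeGroup.mk z)⁻¹ ∈ V (can (v ++ x ++ y)) := by
          intro g hg h1
          rw [e1, mem_three] at h1
          rcases h1 with h1 | h1 | h1
          · exfalso
            apply hg f hf
            rw [mem_three]
            exact Or.inl h1
          · exact h1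
          · exfalso
            apply hg (f * f₁⁻¹) (by rw [map_mul, map_inv, hf, p3])
            rw [mem_three]
            right; right
            rw [p4] at h1
            simpa [mul_assoc] using h1
        have h1 := hout _ hno hq
        have h2 := hout _ hno' hq'
        obtain ⟨v', h3, h4⟩ := diff _ h1 h2
        refine ⟨v', h3.trans e2, ?_⟩
        rw [h4]; group

theorem not_cf [Finite A] {k : ℕ} (hk : 0 < k) {z : FreeInvMonoid A} (hz : φ^[k] z = z)
    {L : Language (A × Bool)} (hL : L.IsContextFree) (hfix : can '' L = (Fix φ : Set (FreeInvMonoid A))) :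
    phb φ (bar z) = bar z := by
  obtain ⟨K, hK⟩ := shrink hL
  have hh : (phb φ)^[k] (bar z) = bar z := by rw [← bar_iter, hz]
  have hLf : ∀ w ∈ L, φ (can w) = can w := by
    intro w hw
    have : can w ∈ (Fix φ : Set (FreeInvMonoid A)) := by rw [← hfix]; exact ⟨w, hw, rfl⟩
    exact this
  have main : ∀ n : ℕ, (phb φ (bar z)) ^ n * ((bar z) ^ n)⁻¹ ∈
      (fun v : Word A => FreeGroup.mk v) '' {v : Word A | v.length ≤ K} := by
    intro n
    obtain ⟨G, h1, h2, h3⟩ := exists_G φ (z := z ^ n) hk (by rw [iterate_map_pow, hz])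
    have h4 : G ∈ (Fix φ : Set (FreeInvMonoid A)) := h1
    rw [← hfix] at h4
    obtain ⟨w, hw, hw2⟩ := h4
    obtain ⟨v, h5, h6⟩ := key φ hk hh hLf hK n _ w hw rfl ⟨1, map_one _, by
      rw [mul_one, hw2, h3]
      refine ⟨0, ?_⟩
      have := bar_mem_V (z ^ n)
      rwa [map_pow] at this⟩
    exact ⟨v, h5, h6⟩
  obtain ⟨i, j, hij, he⟩ : ∃ i j : ℕ, i < j ∧
      (phb φ (bar z)) ^ i * ((bar z) ^ i)⁻¹ = (phb φ (bar z)) ^ j * ((bar z) ^ j)⁻¹ :=
    Set.Finite.exists_lt_map_eq_of_forall_mem
      (f := fun n : ℕ => (phb φ (bar z)) ^ n * ((bar z) ^ n)⁻¹) main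
      ((List.finite_length_le _ K).image _)
  have h1 : (phb φ (bar z)) ^ (j - i) = (bar z) ^ (j - i) := by
    obtain ⟨d, rfl⟩ : ∃ d, j = i + d := ⟨j - i, by omega⟩
    rw [show i + d - i = d by omega]
    rw [pow_add, pow_add, mul_inv_rev] at he
    have h2 : (phb φ (bar z)) ^ i * ((bar z) ^ i)⁻¹ =
        (phb φ (bar z)) ^ i * ((phb φ (bar z)) ^ d * (((bar z) ^ d)⁻¹ * ((bar z) ^ i)⁻¹)) := by
      rw [he]; group
    have h3 := mul_left_cancel h2
    rw [← mul_assoc] at h3
    have h4 : (1 : FreeGroup A) * ((bar z) ^ i)⁻¹ =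
        (phb φ (bar z)) ^ d * ((bar z) ^ d)⁻¹ * ((bar z) ^ i)⁻¹ := by rw [one_mul]; exact h3
    have h5 := mul_right_cancel h4
    exact (mul_inv_eq_one.1 h5.symm)
  exact pow_left_injective (show j - i ≠ 0 by omega) h1

end Pool.Agent.Helper25.FIM
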